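import Pool.Agent.X5.LPS.One

/-!
# Few `n`-th powers summing to an `n`-th power: small digit sums in a common base

Let `2 ≤ k`, `k ^ 2 ≤ n` and `a₁ ^ n + ... + aₖ ^ n = c ^ n` in positive integers whose digit sums
in a common base `b > k H ^ n` are at most `H`. Then some `n`-th power of a positive integer `≤ H`
is the sum of at least two and at most `k` positive `n`-th powers, and `n ≤ k (H - 1)`.
-/

set_option autoImplicit false

namespace Pool.Agent.Results.MP_b35960_nt.SmallDigits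

theorem result (n k : ℕ) (hk2 : 2 ≤ k) (hk : k ^ 2 ≤ n) (H b : ℕ) (hb : k * H ^ n < b)
    (a : Fin k → ℕ) (c : ℕ) (ha : ∀ i, 0 < a i ∧ (b.digits (a i)).sum ≤ H)
    (hc : 0 < c ∧ (b.digits c).sum ≤ H) (he : ∑ i, a i ^ n = c ^ n) :
    (∃ (I : Finset (Fin k)) (u : Fin k → ℕ) (v : ℕ), 2 ≤ I.card ∧ (∀ i ∈ I, 0 < u i) ∧
      0 < v ∧ v ≤ H ∧ ∑ i ∈ I, u i ^ n = v ^ n) ∧ n ≤ k * (H - 1) :=
  Pool.Agent.X5.LPS.one_side n k hk2 hk H b hb a c ha hc he

end Pool.Agent.Results.MP_b35960_nt.SmallDigits
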